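import Pool.Agent.Results.MP_377342_al.NeutralExtension

/-!
# Extending invariant HA-neutral subspaces, quaternion nonstandard involution

Positive answers to Q1 and Q2 of MP_64d585_al.
-/

set_option autoImplicit false

open Quaternion Matrix MulOpposite

namespace Pool.Agent.Results.MP_64d585_al.NeutralExtension

open Pool.Agent.Q110.NeutMat
open Pool.Agent.Results.MP_377342_al.NeutralExtension (Subsp Invariant Eigenvalue PreCSet CSet extend
  form_real)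

variable {n : ℕ}

/-- Nonstandard involutions of the quaternions. -/
def IsNonstandard (φ : ℍ[ℝ] →ₗ[ℝ] ℍ[ℝ]) : Prop :=
  (∀ x y, φ (x * y) = φ y * φ x) ∧ (∀ x, φ (φ x) = x) ∧ ∃ x, φ x ≠ star x

/-- The matrix `X_φ`. -/
noncomputable def mphi (φ : ℍ[ℝ] →ₗ[ℝ] ℍ[ℝ]) (X : Matrix (Fin n) (Fin n) ℍ[ℝ]) : Matrix (Fin n) (Fin n) ℍ[ℝ] :=
  Matrix.of fun i j => φ (X j i)

/-- The value `y_φ G x`. -/
noncomputable def form (φ : ℍ[ℝ] →ₗ[ℝ] ℍ[ℝ]) (G : Matrix (Fin n) (Fin n) ℍ[ℝ]) (y x : Fin n → ℍ[ℝ]) : ℍ[ℝ] :=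
  (fun i => φ (y i)) ⬝ᵥ (G *ᵥ x)

/-- `M` is `(G, φ)`-neutral. -/
def Neutral (φ : ℍ[ℝ] →ₗ[ℝ] ℍ[ℝ]) (G : Matrix (Fin n) (Fin n) ℍ[ℝ]) (M : Subsp n) : Prop :=
  ∀ x ∈ M, ∀ y ∈ M, form φ G y x = 0

/-- `M` is `(G, φ)`-nonnegative. -/
def Nonneg (φ : ℍ[ℝ] →ₗ[ℝ] ℍ[ℝ]) (β : ℍ[ℝ]) (G : Matrix (Fin n) (Fin n) ℍ[ℝ]) (M : Subsp n) :
    Prop := ∀ x ∈ M, ∃ r : ℝ, 0 ≤ r ∧ β⁻¹ * form φ G x x = (r : ℍ[ℝ])

/-- `M` is `(G, φ)`-nonpositive. -/
def Nonpos (φ : ℍ[ℝ] →ₗ[ℝ] ℍ[ℝ]) (β : ℍ[ℝ]) (G : Matrix (Fin n) (Fin n) ℍ[ℝ]) (M : Subsp n) :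
    Prop := ∀ x ∈ M, ∃ r : ℝ, r ≤ 0 ∧ β⁻¹ * form φ G x x = (r : ℍ[ℝ])

/-- `M` is maximal `(G, φ)`-nonnegative. -/
def MaxNonneg (φ : ℍ[ℝ] →ₗ[ℝ] ℍ[ℝ]) (β : ℍ[ℝ]) (G : Matrix (Fin n) (Fin n) ℍ[ℝ]) (M : Subsp n) :
    Prop := Nonneg φ β G M ∧ ∀ M' : Subsp n, M ≤ M' → Nonneg φ β G M' → M' = M

/-- `M` is maximal `(G, φ)`-nonpositive. -/
def MaxNonpos (φ : ℍ[ℝ] →ₗ[ℝ] ℍ[ℝ]) (β : ℍ[ℝ]) (G : Matrix (Fin n) (Fin n) ℍ[ℝ]) (M : Subsp n) :
    Prop := Nonpos φ β G M ∧ ∀ M' : Subsp n, M ≤ M' → Nonpos φ β G M' → M' = M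

section involution

variable {φ : ℍ[ℝ] →ₗ[ℝ] ℍ[ℝ]} (hφ : IsNonstandard φ) {β : ℍ[ℝ]} (hβφ : φ β = -β) (hβ : ‖β‖ = 1)

include hφ

theorem phi_one : φ 1 = 1 := by
  have h := hφ.1 (φ 1) 1
  rw [mul_one, hφ.2.1, mul_one] at h
  exact h.symm

theorem phi_real (r : ℝ) : φ (r : ℍ[ℝ]) = r := by
  have h : (r : ℍ[ℝ]) = r • (1 : ℍ[ℝ]) := by
    rw [← Quaternion.coe_mul_eq_smul, mul_one]
  rw [h, map_smul, phi_one hφ]

/-- The real part is preserved. -/
theorem phi_re (q : ℍ[ℝ]) : (φ q).re = q.re := by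
  -- the pure part `v` has `v * v` real and nonpositive
  set v : ℍ[ℝ] := q - (q.re : ℍ[ℝ]) with hv
  have hv0 : v.re = 0 := by
    rw [hv, Quaternion.re_sub, Quaternion.re_coe, sub_self]
  have hsv : star v = -v := Quaternion.star_eq_neg.2 hv0
  have h1 : v * v = ((-(normSq v) : ℝ) : ℍ[ℝ]) := by
    have h2 := Quaternion.self_mul_star v
    rw [hsv, mul_neg] at h2
    rw [Quaternion.coe_neg, ← h2, neg_neg]
  have h2 : φ v * φ v = ((-(normSq v) : ℝ) : ℍ[ℝ]) := by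
    rw [← hφ.1, h1, phi_real hφ]
  have h3 : (φ v).re = 0 := by
    by_contra hne
    have e1 := congrArg QuaternionAlgebra.imI h2
    have e2 := congrArg QuaternionAlgebra.imJ h2
    have e3 := congrArg QuaternionAlgebra.imK h2
    have e0 := congrArg QuaternionAlgebra.re h2
    have f1 : (φ v * φ v).imI = 0 := e1
    have f2 : (φ v * φ v).imJ = 0 := e2
    have f3 : (φ v * φ v).imK = 0 := e3
    have f0 : (φ v * φ v).re = -(normSq v) := e0
    rw [Quaternion.imI_mul] at f1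
    rw [Quaternion.imJ_mul] at f2
    rw [Quaternion.imK_mul] at f3
    rw [Quaternion.re_mul] at f0
    have g1 : (φ v).imI = 0 := by
      have : (φ v).re * (φ v).imI = 0 := by linarith
      exact (mul_eq_zero.1 this).resolve_left hne
    have g2 : (φ v).imJ = 0 := by
      have : (φ v).re * (φ v).imJ = 0 := by linarith
      exact (mul_eq_zero.1 this).resolve_left hne
    have g3 : (φ v).imK = 0 := by
      have : (φ v).re * (φ v).imK = 0 := by linarith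
      exact (mul_eq_zero.1 this).resolve_left hne
    rw [g1, g2, g3] at f0
    have h4 := Quaternion.normSq_nonneg (a := v)
    have h5 : 0 < (φ v).re * (φ v).re := mul_self_pos.2 hne
    linarith
  have h4 : q = v + (q.re : ℍ[ℝ]) := by
    rw [hv, sub_add_cancel]
  conv_lhs => rw [h4]
  rw [map_add, phi_real hφ, Quaternion.re_add, h3, Quaternion.re_coe, zero_add]

theorem phi_star (q : ℍ[ℝ]) : φ (star q) = star (φ q) := by
  have h1 : star q = ((2 * q.re : ℝ) : ℍ[ℝ]) - q := by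
    have := Quaternion.self_add_star q
    rw [eq_sub_iff_add_eq, add_comm, this]
    push_cast
    rfl
  have h2 : star (φ q) = ((2 * (φ q).re : ℝ) : ℍ[ℝ]) - φ q := by
    have := Quaternion.self_add_star (φ q)
    rw [eq_sub_iff_add_eq, add_comm, this]
    push_cast
    rfl
  rw [h1, h2, map_sub, phi_real hφ, phi_re hφ]

include hβφ hβ

theorem beta_re : β.re = 0 := by
  have h := phi_re hφ β
  rw [hβφ, Quaternion.re_neg] at h
  linarith

theorem beta_star : star β = -β := Quaternion.star_eq_neg.2 (beta_re hφ hβφ hβ)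

theorem beta_sq : β * β = -1 := by
  have h2 := Quaternion.self_mul_star β
  rw [beta_star hφ hβφ hβ, mul_neg, Quaternion.normSq_eq_norm_mul_self, hβ, mul_one,
    Quaternion.coe_one] at h2
  rw [← h2, neg_neg]

theorem beta_ne : β ≠ 0 := by
  rintro rfl
  rw [norm_zero] at hβ
  exact zero_ne_one hβ

theorem beta_inv : β⁻¹ = -β := by
  apply inv_eq_of_mul_eq_one_right
  rw [mul_neg, beta_sq hφ hβφ hβ, neg_neg]

/-- An element that commutes with `β` is a real combination of `1` and `β`. -/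
theorem commutes_beta (q : ℍ[ℝ]) (hq : q * β = β * q) :
    ∃ a b : ℝ, q = (a : ℍ[ℝ]) + (b : ℍ[ℝ]) * β := by
  -- `p = q β` satisfies `p + star p` real, and `q` is determined
  have hb := beta_sq hφ hβφ hβ
  have hbs := beta_star hφ hβφ hβ
  refine ⟨q.re, -(q * β).re, ?_⟩
  set v : ℍ[ℝ] := q - (q.re : ℍ[ℝ]) with hv
  have hv0 : v.re = 0 := by
    rw [hv, Quaternion.re_sub, Quaternion.re_coe, sub_self]
  have hsv : star v = -v := Quaternion.star_eq_neg.2 hv0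
  have hvβ : v * β = β * v := by
    rw [hv, sub_mul, mul_sub, hq, Quaternion.coe_commutes]
  -- `v β` is real
  have h1 : star (v * β) = v * β := by
    rw [star_mul, hbs, hsv, neg_mul_neg, hvβ]
  have h2 : v * β = ((v * β).re : ℍ[ℝ]) := Quaternion.star_eq_self.1 h1
  have h3 : v = -((v * β).re : ℍ[ℝ]) * β := by
    rw [← h2, neg_mul, mul_assoc, hb, mul_neg, mul_one, neg_neg]
  have h4 : (v * β).re = (q * β).re := by
    rw [hv, sub_mul, Quaternion.re_sub, Quaternion.coe_mul_eq_smul, Quaternion.re_smul,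
      beta_re hφ hβφ hβ, smul_zero, sub_zero]
  have h5 : q = (q.re : ℍ[ℝ]) + v := by rw [hv]; abel
  conv_lhs => rw [h5, h3, h4]
  rw [Quaternion.coe_neg]

/-- The structure of nonstandard involutions. -/
theorem phi_eq (q : ℍ[ℝ]) : φ q = β⁻¹ * star q * β := by
  have hb := beta_sq hφ hβφ hβ
  have hbs := beta_star hφ hβφ hβ
  have hbi := beta_inv hφ hβφ hβ
  -- the automorphism `θ`
  have θmul : ∀ x y, φ (star (x * y)) = φ (star x) * φ (star y) := by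
    intro x y
    rw [star_mul, hφ.1]
  have θβ : φ (star β) = β := by rw [hbs, map_neg, hβφ, neg_neg]
  have θθ : ∀ x, φ (star (φ (star x))) = x := by
    intro x
    rw [phi_star hφ, hφ.2.1, star_star]
  have θreal : ∀ r : ℝ, φ (star (r : ℍ[ℝ])) = r := by
    intro r
    rw [Quaternion.star_coe, phi_real hφ]
  have θcomm : ∀ x, x * β = β * x → φ (star x) = x := by
    intro x hx
    obtain ⟨a, b, rfl⟩ := commutes_beta hφ hβφ hβ x hx
    rw [star_add, map_add, θreal, θmul, θreal, θβ]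
  have key : ∀ v, v * β = -(β * v) → φ (star v) = -v := by
    intro v hv
    by_contra hne
    set w := v + φ (star v) with hw
    have hw0 : w ≠ 0 := by
      intro h
      exact hne (eq_neg_of_add_eq_zero_right h)
    have hθw : φ (star w) = w := by
      rw [hw, star_add, map_add, θθ]
      exact add_comm _ _
    have hwβ : w * β = -(β * w) := by
      have h1 : φ (star v) * β = -(β * φ (star v)) := by
        have h2 := congrArg (fun x => φ (star x)) hv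
        rw [θmul, θβ, star_neg, map_neg, θmul, θβ] at h2
        exact h2
      rw [hw, add_mul, hv, h1, mul_add]
      abel
    -- `θ` is the identity
    obtain ⟨x, hx⟩ := hφ.2.2
    apply hx
    have hid : ∀ y, φ (star y) = y := by
      intro y
      set yp := y - β * y * β with hyp
      set ym := y + β * y * β with hym
      have h1 : yp * β = β * yp := by
        rw [hyp, sub_mul, mul_sub, mul_assoc (β * y) β β, hb]
        rw [← mul_assoc β (β * y) β, ← mul_assoc β β y, hb]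
        simp only [mul_neg, mul_one, neg_mul, one_mul, sub_neg_eq_add]
        abel
      have h2 : ym * β = -(β * ym) := by
        rw [hym, add_mul, mul_add, mul_assoc (β * y) β β, hb]
        rw [← mul_assoc β (β * y) β, ← mul_assoc β β y, hb]
        simp only [mul_neg, mul_one, neg_mul, one_mul]
        abel
      have h3 : φ (star ym) = ym := by
        have h4 : (ym * w) * β = β * (ym * w) := by
          rw [mul_assoc, hwβ, mul_neg, ← mul_assoc, h2, neg_mul, neg_neg, mul_assoc]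
        have h5 := θcomm _ h4
        rw [θmul, hθw] at h5
        exact mul_right_cancel₀ hw0 h5
      have h4 := θcomm yp h1
      have h5 : (2 : ℝ) • y = yp + ym := by
        rw [hyp, hym, two_smul]
        abel
      have h6 : φ (star ((2 : ℝ) • y)) = (2 : ℝ) • y := by
        rw [h5, star_add, map_add, h3, h4]
      rw [Quaternion.star_smul, map_smul] at h6
      have := congrArg (fun z => (2 : ℝ)⁻¹ • z) h6
      simpa [smul_smul] using this
    have := hid (star x)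
    rwa [star_star] at this
  -- decomposition of `star q`
  set y := star q with hy
  have hqy : q = star y := by rw [hy, star_star]
  set yp := y - β * y * β with hyp
  set ym := y + β * y * β with hym
  have h1 : yp * β = β * yp := by
    rw [hyp, sub_mul, mul_sub, mul_assoc (β * y) β β, hb]
    rw [← mul_assoc β (β * y) β, ← mul_assoc β β y, hb]
    simp only [mul_neg, mul_one, neg_mul, one_mul, sub_neg_eq_add]
    abel
  have h2 : ym * β = -(β * ym) := by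
    rw [hym, add_mul, mul_add, mul_assoc (β * y) β β, hb]
    rw [← mul_assoc β (β * y) β, ← mul_assoc β β y, hb]
    simp only [mul_neg, mul_one, neg_mul, one_mul]
    abel
  have h3 := θcomm yp h1
  have h4 := key ym h2
  have h5 : (2 : ℝ) • y = yp + ym := by
    rw [hyp, hym, two_smul]
    abel
  have h6 : (2 : ℝ) • φ (star y) = yp - ym := by
    rw [← map_smul, ← Quaternion.star_smul, h5, star_add, map_add, h3, h4]
    abel
  have h7 : yp - ym = (2 : ℝ) • (β⁻¹ * y * β) := by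
    rw [hyp, hym, hbi, two_smul]
    simp only [neg_mul]
    abel
  rw [h7] at h6
  rw [hqy]
  have := congrArg (fun z => (2 : ℝ)⁻¹ • z) h6
  simpa [smul_smul] using this

/-- Reduction of the form to a standard hermitian one. -/
theorem form_eq (G : Matrix (Fin n) (Fin n) ℍ[ℝ]) (y x : Fin n → ℍ[ℝ]) :
    form φ G y x = β⁻¹ * (star y ⬝ᵥ ((β • G) *ᵥ x)) := by
  simp only [form, dotProduct, phi_eq hφ hβφ hβ, Matrix.smul_mulVec, Pi.smul_apply, smul_eq_mul,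
    Finset.mul_sum, mul_assoc, Pi.star_apply]

theorem beta_form (G : Matrix (Fin n) (Fin n) ℍ[ℝ]) (x : Fin n → ℍ[ℝ]) :
    β⁻¹ * form φ G x x = star x ⬝ᵥ ((-(β • G)) *ᵥ x) := by
  rw [form_eq hφ hβφ hβ, beta_inv hφ hβφ hβ, ← mul_assoc, neg_mul_neg, beta_sq hφ hβφ hβ,
    Matrix.neg_mulVec, dotProduct_neg, neg_mul, one_mul]

theorem mphi_eq (X : Matrix (Fin n) (Fin n) ℍ[ℝ]) (i j : Fin n) :
    mphi φ X i j = β⁻¹ * Xᴴ i j * β := by
  rw [mphi, Matrix.of_apply, phi_eq hφ hβφ hβ, Matrix.conjTranspose_apply]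

/-- **Q1 and Q2 are true.** -/
theorem result_aux (H A : Matrix (Fin n) (Fin n) ℍ[ℝ]) (hu : IsUnit H) (hH : mphi φ H = H)
    (hA : H * A = -(mphi φ A * H)) (N : Subsp n) (hN : Invariant A N)
    (hNn : Neutral φ (H * A) N) :
    ((∃ L : Subsp n, N ≤ L ∧ Invariant A L ∧ MaxNonneg φ β (H * A) L) ∧
      (∃ L : Subsp n, N ≤ L ∧ Invariant A L ∧ MaxNonpos φ β (H * A) L)) ∧
    ∀ S : Set ℍ[ℝ], CSet A S → (∀ l, Eigenvalue A N l → l.re ≠ 0 → l ∈ S) →
      (∃ L : Subsp n, N ≤ L ∧ Invariant A L ∧ MaxNonneg φ β (H * A) L ∧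
        ∀ l, (Eigenvalue A L l ∧ l.re ≠ 0) ↔ l ∈ S) ∧
      (∃ L : Subsp n, N ≤ L ∧ Invariant A L ∧ MaxNonpos φ β (H * A) L ∧
        ∀ l, (Eigenvalue A L l ∧ l.re ≠ 0) ↔ l ∈ S) := by
  have hb := beta_sq hφ hβφ hβ
  have hbs := beta_star hφ hβφ hβ
  have hbi := beta_inv hφ hβφ hβ
  have hb0 := beta_ne hφ hβφ hβ
  -- conjugate transposes
  have hct : ∀ X : Matrix (Fin n) (Fin n) ℍ[ℝ], ∀ i j, β * mphi φ X i j = Xᴴ i j * β := by
    intro X i j
    rw [mphi_eq hφ hβφ hβ, ← mul_assoc, ← mul_assoc, mul_inv_cancel₀ hb0, one_mul]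
  set K : Matrix (Fin n) (Fin n) ℍ[ℝ] := β • H with hK
  have hKK : Kᴴ = -K := by
    refine Matrix.ext fun i j => ?_
    rw [Matrix.conjTranspose_apply, hK, Matrix.neg_apply, Matrix.smul_apply, Matrix.smul_apply,
      smul_eq_mul, smul_eq_mul, star_mul, hbs]
    have h1 := hct H i j
    rw [hH, Matrix.conjTranspose_apply] at h1
    rw [mul_neg, ← h1]
  have hKA : K * A = -(Aᴴ * K) := by
    have h1 : Aᴴ * K = β • (mphi φ A * H) := by
      refine Matrix.ext fun i j => ?_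
      simp only [Matrix.mul_apply, hK, Matrix.smul_apply, smul_eq_mul, Finset.mul_sum]
      refine Finset.sum_congr rfl fun k _ => ?_
      rw [← mul_assoc, ← hct A i k, mul_assoc]
    rw [h1, hK, Matrix.smul_mul, hA, smul_neg]
  have hG : (K * A)ᴴ = K * A := by
    rw [Matrix.conjTranspose_mul, hKK, Matrix.mul_neg, ← hKA]
  have hG' : (-(K * A))ᴴ = -(K * A) := by
    rw [Matrix.conjTranspose_neg, hG]
  have hAG : Aᴴ * (K * A) = -(K * A * A) := by
    rw [← Matrix.mul_assoc, ← neg_eq_iff_eq_neg.2 hKA]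
    simp
  have hAG' : Aᴴ * (-(K * A)) = -(-(K * A) * A) := by
    rw [Matrix.mul_neg, hAG, Matrix.neg_mul]
  have hKHA : K * A = β • (H * A) := by rw [hK, Matrix.smul_mul]
  have hker : ∀ x : Fin n → ℍ[ℝ], (K * A) *ᵥ x = 0 → A *ᵥ x = 0 := by
    intro x hx
    have hx' : (H * A) *ᵥ x = 0 := by
      rw [hKHA, Matrix.smul_mulVec] at hx
      funext i
      have := congrFun hx i
      rw [Pi.smul_apply, smul_eq_mul, Pi.zero_apply] at this
      exact (mul_eq_zero.1 this).resolve_left hb0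
    obtain ⟨u, hu⟩ := hu
    have h1 : (↑u⁻¹ : Matrix (Fin n) (Fin n) ℍ[ℝ]) *ᵥ ((H * A) *ᵥ x) = 0 := by
      rw [hx', Matrix.mulVec_zero]
    rw [Matrix.mulVec_mulVec, ← Matrix.mul_assoc, ← hu, Units.inv_mul, Matrix.one_mul] at h1
    exact h1
  have hker' : ∀ x : Fin n → ℍ[ℝ], (-(K * A)) *ᵥ x = 0 → A *ᵥ x = 0 := by
    intro x hx
    rw [Matrix.neg_mulVec, neg_eq_zero] at hx
    exact hker x hx
  have hN0 : ∀ x ∈ N, star x ⬝ᵥ ((K * A) *ᵥ x) = 0 := by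
    intro x hx
    have h1 := hNn x hx x hx
    rw [form_eq hφ hβφ hβ, ← hKHA] at h1
    exact (mul_eq_zero.1 h1).resolve_left (inv_ne_zero hb0)
  have hn : ∀ x ∈ N, 0 ≤ (star x ⬝ᵥ ((K * A) *ᵥ x)).re := by
    intro x hx
    rw [hN0 x hx, Quaternion.re_zero]
  have hn' : ∀ x ∈ N, 0 ≤ (star x ⬝ᵥ ((-(K * A)) *ᵥ x)).re := by
    intro x hx
    rw [Matrix.neg_mulVec, dotProduct_neg, hN0 x hx, neg_zero, Quaternion.re_zero]
  have hval : ∀ x : Fin n → ℍ[ℝ], β⁻¹ * form φ (H * A) x x =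
      ((-(star x ⬝ᵥ ((K * A) *ᵥ x)).re : ℝ) : ℍ[ℝ]) := by
    intro x
    rw [beta_form hφ hβφ hβ, ← hKHA, Matrix.neg_mulVec, dotProduct_neg, form_real hG x,
      Quaternion.coe_neg]
    simp
  have iff1 : ∀ M : Subsp n, Nonneg φ β (H * A) M ↔
      ∀ x ∈ M, 0 ≤ (star x ⬝ᵥ ((-(K * A)) *ᵥ x)).re := by
    intro M
    refine forall₂_congr fun x _ => ?_
    rw [hval x, Matrix.neg_mulVec, dotProduct_neg, Quaternion.re_neg]
    constructor
    · rintro ⟨r, hr, h⟩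
      rw [Quaternion.coe_inj.1 h]
      exact hr
    · intro h
      exact ⟨_, h, rfl⟩
  have iff2 : ∀ M : Subsp n, Nonpos φ β (H * A) M ↔
      ∀ x ∈ M, 0 ≤ (star x ⬝ᵥ ((K * A) *ᵥ x)).re := by
    intro M
    refine forall₂_congr fun x _ => ?_
    rw [hval x]
    constructor
    · rintro ⟨r, hr, h⟩
      have := Quaternion.coe_inj.1 h
      linarith
    · intro h
      exact ⟨_, by linarith, rfl⟩
  have key1 : ∀ L : Subsp n, ((∀ x ∈ L, 0 ≤ (star x ⬝ᵥ ((-(K * A)) *ᵥ x)).re) ∧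
      ∀ L' : Subsp n, L ≤ L' → (∀ x ∈ L', 0 ≤ (star x ⬝ᵥ ((-(K * A)) *ᵥ x)).re) → L' = L) →
      MaxNonneg φ β (H * A) L := by
    rintro L ⟨h1, h2⟩
    exact ⟨(iff1 L).2 h1, fun L' hL' hn => h2 L' hL' ((iff1 L').1 hn)⟩
  have key2 : ∀ L : Subsp n, ((∀ x ∈ L, 0 ≤ (star x ⬝ᵥ ((K * A) *ᵥ x)).re) ∧
      ∀ L' : Subsp n, L ≤ L' → (∀ x ∈ L', 0 ≤ (star x ⬝ᵥ ((K * A) *ᵥ x)).re) → L' = L) →
      MaxNonpos φ β (H * A) L := by
    rintro L ⟨h1, h2⟩
    exact ⟨(iff2 L).2 h1, fun L' hL' hn => h2 L' hL' ((iff2 L').1 hn)⟩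
  obtain ⟨⟨L1, a1, a2, a3, a4⟩, a5⟩ := extend A (-(K * A)) hG' hAG' hker' N hN hn'
  obtain ⟨⟨L2, b1, b2, b3, b4⟩, b5⟩ := extend A (K * A) hG hAG hker N hN hn
  refine ⟨⟨⟨L1, a1, a2, key1 L1 ⟨a3, a4⟩⟩, ⟨L2, b1, b2, key2 L2 ⟨b3, b4⟩⟩⟩, fun S hS hSN => ?_⟩
  obtain ⟨L3, c1, c2, c3, c4, c5⟩ := a5 S hS hSN
  obtain ⟨L4, d1, d2, d3, d4, d5⟩ := b5 S hS hSN
  exact ⟨⟨L3, c1, c2, key1 L3 ⟨c3, c4⟩, c5⟩, ⟨L4, d1, d2, key2 L4 ⟨d3, d4⟩, d5⟩⟩

end involution

/-- **Q1 and Q2 are true.** -/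
theorem result (n : ℕ) (φ : ℍ[ℝ] →ₗ[ℝ] ℍ[ℝ]) (hφ : IsNonstandard φ) (β : ℍ[ℝ]) (hβφ : φ β = -β)
    (hβ : ‖β‖ = 1) (H A : Matrix (Fin n) (Fin n) ℍ[ℝ]) (hu : IsUnit H) (hH : mphi φ H = H)
    (hA : H * A = -(mphi φ A * H)) (N : Subsp n) (hN : Invariant A N)
    (hNn : Neutral φ (H * A) N) :
    ((∃ L : Subsp n, N ≤ L ∧ Invariant A L ∧ MaxNonneg φ β (H * A) L) ∧
      (∃ L : Subsp n, N ≤ L ∧ Invariant A L ∧ MaxNonpos φ β (H * A) L)) ∧
    ∀ S : Set ℍ[ℝ], CSet A S → (∀ l, Eigenvalue A N l → l.re ≠ 0 → l ∈ S) →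
      (∃ L : Subsp n, N ≤ L ∧ Invariant A L ∧ MaxNonneg φ β (H * A) L ∧
        ∀ l, (Eigenvalue A L l ∧ l.re ≠ 0) ↔ l ∈ S) ∧
      (∃ L : Subsp n, N ≤ L ∧ Invariant A L ∧ MaxNonpos φ β (H * A) L ∧
        ∀ l, (Eigenvalue A L l ∧ l.re ≠ 0) ↔ l ∈ S) :=
  result_aux hφ hβφ hβ H A hu hH hA N hN hNn

end Pool.Agent.Results.MP_64d585_al.NeutralExtension
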